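import Mathlib

/-!
Tournaments in which every `k`-set of vertices is dominated: a lower bound for the number of the
vertices.
-/

set_option autoImplicit false

namespace Pool.Agent.T6.H51.ST

open Finset

/-- Tournaments. -/
structure Tour {V : Type*} (r : V → V → Prop) : Prop where
  irr : ∀ v, ¬ r v v
  one : ∀ u v, u ≠ v → (r u v ↔ ¬ r v u)

/-- At least `k` vertices, and every `k`-set is dominated by a vertex. -/
def PS (k : ℕ) {n : ℕ} (r : Fin n → Fin n → Prop) : Prop :=
  k ≤ n ∧ ∀ S : Finset (Fin n), S.card = k → ∃ x, ∀ s ∈ S, r x s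

variable {n : ℕ} {r : Fin n → Fin n → Prop}

theorem Tour.asymm (hT : Tour r) {u v : Fin n} (h : r u v) : ¬ r v u := by
  have huv : u ≠ v := by
    rintro rfl
    exact hT.irr _ h
  exact (hT.one u v huv).1 h

open Classical in
/-- The vertices which dominate `A`. -/
noncomputable def IN (r : Fin n → Fin n → Prop) (A : Finset (Fin n)) : Finset (Fin n) :=
  univ.filter fun y => ∀ v ∈ A, r y v

theorem mem_IN {A : Finset (Fin n)} {y : Fin n} : y ∈ IN r A ↔ ∀ v ∈ A, r y v := by
  simp [IN]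

open Classical in
theorem deg (hT : Tour r) (A : Finset (Fin n)) (x : Fin n) :
    ((IN r A).filter (fun y => r x y)).card + (IN r (insert x A)).card ≤ (IN r A).card := by
  rw [← card_union_of_disjoint]
  · apply card_le_card
    intro y hy
    rcases mem_union.1 hy with h | h
    · exact (mem_filter.1 h).1
    · rw [mem_IN] at h ⊢
      exact fun v hv => h v (mem_insert_of_mem hv)
  · rw [disjoint_left]
    intro y h1 h2
    rw [mem_IN] at h2
    exact hT.asymm (mem_filter.1 h1).2 (h2 x (mem_insert_self x A))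

/-- Lower bounds for the number of the vertices which dominate a set with `j` elements. -/
def Low (r : Fin n → Fin n → Prop) (j F : ℕ) : Prop :=
  ∀ A : Finset (Fin n), A.card = j → F ≤ (IN r A).card

theorem step {k : ℕ} (hT : Tour r) (hS : PS k r) {j F : ℕ} (hj : j + 1 ≤ k) (hF : 1 ≤ F)
    (h : Low r (j + 1) F) {A : Finset (Fin n)} (hA : A.card = j) :
    k ≤ (IN r A).card ∧ F ≤ (IN r A).card ∧
      (IN r A).card.choose k ≤ n * ((IN r A).card - F).choose k := by
  classical
  obtain ⟨hkn, hdom⟩ := hS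
  have hFr : F ≤ (IN r A).card := by
    obtain ⟨x, hx⟩ : ∃ x, x ∉ A := by
      by_contra hc
      push Not at hc
      have : (univ : Finset (Fin n)) ⊆ A := fun x _ => hc x
      have := card_le_card this
      rw [card_univ, Fintype.card_fin] at this
      omega
    have h1 := h (insert x A) (by rw [card_insert_of_notMem hx, hA])
    have h2 := deg hT A x
    omega
  have hd : ∀ x, ((IN r A).filter (fun y => r x y)).card ≤ (IN r A).card - F := by
    intro x
    by_cases hx : x ∈ A
    · have : (IN r A).filter (fun y => r x y) = ∅ := by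
        rw [filter_eq_empty_iff]
        intro y hy h1
        exact hT.asymm h1 (mem_IN.1 hy x hx)
      rw [this, card_empty]
      exact Nat.zero_le _
    · have h1 := h (insert x A) (by rw [card_insert_of_notMem hx, hA])
      have h2 := deg hT A x
      omega
  refine ⟨?_, hFr, ?_⟩
  · by_contra hlt
    push Not at hlt
    obtain ⟨S, hS1, hS2⟩ := exists_superset_card_eq (s := IN r A) (n := k) hlt.le
      (by rw [Fintype.card_fin]; exact hkn)
    obtain ⟨x, hx⟩ := hdom S hS2
    have h1 := hd x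
    have h2 : (IN r A).filter (fun y => r x y) = IN r A := by
      rw [filter_eq_self]
      exact fun y hy => hx y (hS1 hy)
    rw [h2] at h1
    omega
  · have h1 : (IN r A).powersetCard k ⊆ univ.biUnion fun x : Fin n =>
        ((IN r A).filter (fun y => r x y)).powersetCard k := by
      intro S hS
      rw [mem_powersetCard] at hS
      obtain ⟨x, hx⟩ := hdom S hS.2
      rw [mem_biUnion]
      refine ⟨x, mem_univ _, ?_⟩
      rw [mem_powersetCard]
      exact ⟨fun y hy => mem_filter.2 ⟨hS.1 hy, hx y hy⟩, hS.2⟩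
    calc (IN r A).card.choose k = ((IN r A).powersetCard k).card := by rw [card_powersetCard]
      _ ≤ _ := card_le_card h1
      _ ≤ ∑ x : Fin n, (((IN r A).filter (fun y => r x y)).powersetCard k).card :=
        card_biUnion_le
      _ ≤ ∑ _x : Fin n, ((IN r A).card - F).choose k := by
        refine sum_le_sum fun x _ => ?_
        rw [card_powersetCard]
        exact Nat.choose_le_choose k (hd x)
      _ = n * ((IN r A).card - F).choose k := by
        rw [sum_const, card_univ, Fintype.card_fin, smul_eq_mul]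

theorem halve (hT : Tour r) {j F : ℕ} (hF : 1 ≤ F) (h : Low r (j + 1) F) (hj : j < n) :
    Low r j (2 * F) := by
  classical
  intro A hA
  set R := IN r A with hR
  have hRA : ∀ y ∈ R, y ∉ A := fun y hy hyA => hT.irr y (mem_IN.1 hy y hyA)
  have h1 : ∀ y ∈ R, F ≤ (R.filter fun z => r z y).card := by
    intro y hy
    have h2 := h (insert y A) (by rw [card_insert_of_notMem (hRA y hy), hA])
    refine h2.trans (card_le_card fun z hz => ?_)
    rw [mem_IN] at hz
    rw [mem_filter, hR, mem_IN]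
    exact ⟨fun v hv => hz v (mem_insert_of_mem hv), hz y (mem_insert_self _ _)⟩
  have hne : 1 ≤ R.card := by
    obtain ⟨x, hx⟩ : ∃ x, x ∉ A := by
      by_contra hc
      push Not at hc
      have : (univ : Finset (Fin n)) ⊆ A := fun x _ => hc x
      have := card_le_card this
      rw [card_univ, Fintype.card_fin] at this
      omega
    have h1 := h (insert x A) (by rw [card_insert_of_notMem hx, hA])
    have h2 := deg hT A x
    rw [← hR] at h2
    omega
  have h3 : R.card * F ≤ ∑ y ∈ R, (R.filter fun z => r z y).card := by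
    rw [← smul_eq_mul]
    exact card_nsmul_le_sum _ _ _ h1
  have h4 : ∑ y ∈ R, (R.filter fun z => r z y).card = ∑ y ∈ R, (R.filter fun z => r y z).card := by
    simp only [card_filter]
    exact sum_comm
  have h5 : ∑ y ∈ R, ((R.filter fun z => r z y).card + (R.filter fun z => r y z).card) ≤
      ∑ _y ∈ R, R.card := by
    refine sum_le_sum fun y _ => ?_
    rw [← card_union_of_disjoint]
    · apply card_le_card
      intro z hz
      rcases mem_union.1 hz with h | h
      · exact (mem_filter.1 h).1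
      · exact (mem_filter.1 h).1
    · rw [disjoint_left]
      intro z h1 h2
      exact hT.asymm (mem_filter.1 h1).2 (mem_filter.1 h2).2
  rw [sum_add_distrib, ← h4, sum_const, smul_eq_mul] at h5
  have h6 : R.card * (2 * F) ≤ R.card * R.card := by nlinarith
  exact Nat.le_of_mul_le_mul_left h6 hne

/-! ### Binomial coefficients -/

theorem desc_real (a k : ℕ) (h : k ≤ a) :
    (a.descFactorial k : ℝ) = ∏ i ∈ range k, ((a : ℝ) - i) := by
  rw [Nat.descFactorial_eq_prod_range, Nat.cast_prod]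
  refine prod_congr rfl fun i hi => ?_
  rw [mem_range] at hi
  rw [Nat.cast_sub (by omega)]

theorem desc_sq (a k : ℕ) (h : k ≤ a) :
    (a.descFactorial k : ℝ) ^ 2 =
      ∏ i ∈ range k, (((a : ℝ) - i) * ((a : ℝ) - (k - 1 - i : ℕ))) := by
  rw [prod_mul_distrib, prod_range_reflect (fun i => (a : ℝ) - (i : ℕ)) k, ← desc_real a k h, sq]

/-- One pair of factors. -/
theorem pair {a b s m η M : ℝ} (ha : 0 ≤ a) (hb : 0 ≤ b) (hm : m = (a + b) / 2) (hη : 0 ≤ η)
    (hM : 0 < M) {K : ℝ} (hK : m ≤ M * K) (hK0 : 0 ≤ K) (hs : m + η * K ≤ s) :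
    4 * (1 + η / M) * (a * b) ≤ (s + a) * (s + b) := by
  have hm0 : 0 ≤ m := by rw [hm]; positivity
  have h1 : a * b ≤ m ^ 2 := by rw [hm]; nlinarith [sq_nonneg (a - b)]
  have h2 : (m + η * K + a) * (m + η * K + b) ≤ (s + a) * (s + b) := by
    have : 0 ≤ η * K := by positivity
    have h0 : 0 ≤ s + a := by linarith
    gcongr
  have h3 : η / M * (a * b) ≤ η * K * m := by
    rw [div_mul_eq_mul_div, div_le_iff₀ hM]
    have h4 : η * (a * b) ≤ η * (m * m) := by
      rw [← sq]
      exact mul_le_mul_of_nonneg_left h1 hη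
    have h5 : η * (m * m) ≤ η * (m * (M * K)) := by gcongr
    calc η * (a * b) ≤ η * (m * (M * K)) := h4.trans h5
      _ = η * K * m * M := by ring
  have h6 : (m + η * K + a) * (m + η * K + b) = 3 * m ^ 2 + 4 * (η * K * m) + (η * K) ^ 2 + a * b := by
    have : a + b = 2 * m := by rw [hm]; ring
    linear_combination (m + η * K) * this
  nlinarith [sq_nonneg (η * K)]

theorem num {δ M : ℝ} (hδ : 0 < δ) (hM : 0 < M) : ∃ k0 : ℕ, ∀ k : ℕ, k0 ≤ k → ∀ r F n : ℕ,
    k ≤ r → (r : ℝ) ≤ M * k → F ≤ r → r.choose k ≤ n * (r - F).choose k →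
    (n : ℝ) ≤ k * 2 ^ k → 2 * (F : ℝ) + (1 / 2 - δ) * k ≤ r := by
  have hγ : 0 < δ / 2 / M := by positivity
  -- the exponential wins
  have hlim := tendsto_pow_const_div_const_pow_of_one_lt 2 (r := 1 + δ / 2 / M) (by linarith)
  have hev := (hlim.eventually (gt_mem_nhds (show (0 : ℝ) < 1 by norm_num))).and
    (Filter.eventually_ge_atTop (⌈1 / δ⌉₊ + 1))
  obtain ⟨k0, hk0⟩ := Filter.eventually_atTop.1 hev
  refine ⟨k0, fun k hk r F n hkr hrM hFr hch hn => ?_⟩
  obtain ⟨hexp, hkδ⟩ := hk0 k hk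
  have hk1 : 1 ≤ δ * k := by
    have h1 : 1 / δ ≤ (k : ℝ) := (Nat.le_ceil _).trans (by exact_mod_cast (by omega : ⌈1 / δ⌉₊ ≤ k))
    rw [div_le_iff₀ hδ] at h1
    linarith
  have hkpos : 1 ≤ k := by omega
  by_contra hlt
  push Not at hlt
  set D : ℕ := r - F with hD
  have hDr : (D : ℝ) = r - F := by rw [hD, Nat.cast_sub hFr]
  have hDk : k ≤ D := by
    by_contra hc
    push Not at hc
    rw [Nat.choose_eq_zero_of_lt hc, mul_zero] at hch
    have := Nat.choose_pos hkr
    omega
  have hfac : r.descFactorial k ≤ n * D.descFactorial k := by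
    rw [Nat.descFactorial_eq_factorial_mul_choose, Nat.descFactorial_eq_factorial_mul_choose]
    calc k.factorial * r.choose k ≤ k.factorial * (n * D.choose k) := Nat.mul_le_mul_left _ hch
      _ = n * (k.factorial * D.choose k) := by ring
  have hfacR : (r.descFactorial k : ℝ) ≤ n * D.descFactorial k := by exact_mod_cast hfac
  have hDpos : (0 : ℝ) < D.descFactorial k := by
    exact_mod_cast Nat.descFactorial_pos.2 hDk
  have hsq1 : (4 * (1 + δ / 2 / M)) ^ k * (D.descFactorial k : ℝ) ^ 2 ≤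
      (r.descFactorial k : ℝ) ^ 2 := by
    rw [desc_sq r k hkr, desc_sq D k hDk]
    have : (4 * (1 + δ / 2 / M)) ^ k = ∏ _i ∈ range k, (4 * (1 + δ / 2 / M)) := by
      rw [prod_const, card_range]
    rw [this, ← prod_mul_distrib]
    refine prod_le_prod (fun i hi => ?_) fun i hi => ?_
    · rw [mem_range] at hi
      have h1 : ((k - 1 - i : ℕ) : ℝ) ≤ D := by exact_mod_cast (by omega : k - 1 - i ≤ D)
      have h2 : (i : ℝ) ≤ D := by exact_mod_cast (by omega : i ≤ D)
      have h3 : 0 ≤ (D : ℝ) - i := by linarith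
      have h4 : 0 ≤ (D : ℝ) - (k - 1 - i : ℕ) := by linarith
      positivity
    · rw [mem_range] at hi
      have h0 : ((k - 1 - i : ℕ) : ℝ) = k - 1 - i := by
        rw [Nat.cast_sub (by omega), Nat.cast_sub hkpos]; simp
      have h1 : ((k - 1 - i : ℕ) : ℝ) ≤ D := by exact_mod_cast (by omega : k - 1 - i ≤ D)
      have h2 : (i : ℝ) ≤ D := by exact_mod_cast (by omega : i ≤ D)
      have hDM : (D : ℝ) ≤ M * k := by
        have : (0 : ℝ) ≤ F := Nat.cast_nonneg _
        linarith
      have h5 := pair (a := (D : ℝ) - i) (b := (D : ℝ) - (k - 1 - i : ℕ)) (s := (r : ℝ) - D)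
        (m := (2 * D - (k - 1)) / 2) (η := δ / 2) (M := M) (K := k) (by linarith) (by linarith)
        (by rw [h0]; ring) (by positivity) hM (by
          have : (1 : ℝ) ≤ k := by exact_mod_cast hkpos
          linarith) (by positivity) (by rw [hDr] at *; linarith)
      have h6 : ((r : ℝ) - D + (D - i)) = r - i := by ring
      have h7 : ((r : ℝ) - D + (D - (k - 1 - i : ℕ))) = r - (k - 1 - i : ℕ) := by ring
      rw [h6, h7] at h5
      exact h5
  have hsq2 : (r.descFactorial k : ℝ) ^ 2 ≤ ((k : ℝ) * 2 ^ k) ^ 2 * (D.descFactorial k : ℝ) ^ 2 := by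
    rw [← mul_pow]
    gcongr
    exact hfacR.trans (by gcongr)
  have h8 : (4 * (1 + δ / 2 / M)) ^ k ≤ ((k : ℝ) * 2 ^ k) ^ 2 :=
    le_of_mul_le_mul_right (hsq1.trans hsq2) (by positivity)
  have h9 : (1 + δ / 2 / M) ^ k ≤ (k : ℝ) ^ 2 := by
    have h10 : ((k : ℝ) * 2 ^ k) ^ 2 = 4 ^ k * (k : ℝ) ^ 2 := by
      rw [mul_pow, ← pow_mul, mul_comm k 2, pow_mul]
      norm_num
      ring
    rw [h10, mul_pow] at h8
    exact le_of_mul_le_mul_left h8 (by positivity)
  have h11 : 0 < (1 + δ / 2 / M) ^ k := by positivity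
  rw [div_lt_one h11] at hexp
  linarith

/-! ### The exact exponent -/

/-- `x log x`. -/
noncomputable def ps (x : ℝ) : ℝ := x * Real.log x

theorem log_ge {x : ℝ} (hx : 1 < x) : ps x - ps (x - 1) - 1 ≤ Real.log x := by
  unfold ps
  have h0 : 0 < x - 1 := by linarith
  have h1 : Real.log (x / (x - 1)) ≤ x / (x - 1) - 1 :=
    Real.log_le_sub_one_of_pos (by positivity)
  rw [Real.log_div (by linarith) (by linarith)] at h1
  have h2 : (x - 1) * (Real.log x - Real.log (x - 1)) ≤ (x - 1) * (x / (x - 1) - 1) := by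
    gcongr
  have h3 : (x - 1) * (x / (x - 1) - 1) = 1 := by
    field_simp
    ring
  rw [h3] at h2
  linarith

theorem log_le {x : ℝ} (hx : 1 < x) : Real.log (x - 1) ≤ ps x - ps (x - 1) - 1 := by
  unfold ps
  have h0 : 0 < x - 1 := by linarith
  have h1 : Real.log ((x - 1) / x) ≤ (x - 1) / x - 1 :=
    Real.log_le_sub_one_of_pos (by positivity)
  rw [Real.log_div (by linarith) (by linarith)] at h1
  have h2 : x * (Real.log (x - 1) - Real.log x) ≤ x * ((x - 1) / x - 1) := by
    gcongr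
  have h3 : x * ((x - 1) / x - 1) = -1 := by
    field_simp
    ring
  rw [h3] at h2
  linarith

theorem ps_mul {c k : ℝ} (hc : 0 < c) (hk : 0 < k) : ps (c * k) = k * ps c + c * (k * Real.log k) := by
  unfold ps
  rw [Real.log_mul hc.ne' hk.ne']
  ring

theorem numE {α β : ℝ} (hβ : 0 ≤ β) (hτ : 1 < α - β)
    (hG : Real.log 2 < ps α - ps (α - 1) - ps (α - β) + ps (α - β - 1)) :
    ∃ k0 : ℕ, ∀ k : ℕ, k0 ≤ k → ∀ r F n : ℕ, k ≤ r → F ≤ r → β * k ≤ F →
      r.choose k ≤ n * (r - F).choose k → (n : ℝ) ≤ k * 2 ^ k → α * k ≤ r := by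
  set G : ℝ := ps α - ps (α - 1) - ps (α - β) + ps (α - β - 1) with hGdef
  set τ : ℝ := α - β with hτdef
  have hα : 1 < α := by linarith
  -- the linear function wins
  obtain ⟨k0, hk0⟩ : ∃ k0 : ℕ, ∀ k : ℕ, k0 ≤ k →
      Real.log k + (Real.log τ - Real.log (τ - 1)) < k * (G - Real.log 2) := by
    have h1 : Filter.Tendsto (fun k : ℕ => (Real.log k +
        (Real.log τ - Real.log (τ - 1))) / (k : ℝ)) Filter.atTop (nhds 0) := by
      have h2 : Filter.Tendsto (fun k : ℕ => Real.log k / (k : ℝ)) Filter.atTop (nhds 0) :=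
        (Real.isLittleO_log_id_atTop.tendsto_div_nhds_zero).comp tendsto_natCast_atTop_atTop
      have h3 : Filter.Tendsto (fun k : ℕ => (Real.log τ - Real.log (τ - 1)) / (k : ℝ))
          Filter.atTop (nhds 0) := tendsto_const_div_atTop_nhds_zero_nat _
      have h4 := h2.add h3
      rw [add_zero] at h4
      refine h4.congr fun k => ?_
      rw [add_div]
    obtain ⟨k0, hk0⟩ := Filter.eventually_atTop.1 ((h1.eventually
      (gt_mem_nhds (show (0 : ℝ) < G - Real.log 2 by linarith))).and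
      (Filter.eventually_ge_atTop 1))
    refine ⟨k0, fun k hk => ?_⟩
    obtain ⟨h5, h6⟩ := hk0 k hk
    have hkp : (0 : ℝ) < k := by exact_mod_cast h6
    rw [div_lt_iff₀ hkp] at h5
    linarith
  refine ⟨max k0 1, fun k hk r F n hkr hFr hβF hch hn => ?_⟩
  have hkk := hk0 k ((le_max_left _ _).trans hk)
  have hk1 : 1 ≤ k := (le_max_right _ _).trans hk
  have hkp : (0 : ℝ) < k := by exact_mod_cast hk1
  by_contra hlt
  push Not at hlt
  set D : ℕ := r - F with hD
  have hDr : (D : ℝ) = r - F := by rw [hD, Nat.cast_sub hFr]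
  have hDk : k ≤ D := by
    by_contra hc
    push Not at hc
    rw [Nat.choose_eq_zero_of_lt hc, mul_zero] at hch
    have := Nat.choose_pos hkr
    omega
  have hDτ : (D : ℝ) < τ * k := by
    have : τ * k = α * k - β * k := by rw [hτdef]; ring
    linarith
  have hfac : r.descFactorial k ≤ n * D.descFactorial k := by
    rw [Nat.descFactorial_eq_factorial_mul_choose, Nat.descFactorial_eq_factorial_mul_choose]
    calc k.factorial * r.choose k ≤ k.factorial * (n * D.choose k) := Nat.mul_le_mul_left _ hch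
      _ = n * (k.factorial * D.choose k) := by ring
  have hfacR : (r.descFactorial k : ℝ) ≤ n * D.descFactorial k := by exact_mod_cast hfac
  have hDpos : (0 : ℝ) < D.descFactorial k := by
    exact_mod_cast Nat.descFactorial_pos.2 hDk
  have hik : ∀ i ∈ range k, (i : ℝ) + 1 ≤ k := by
    intro i hi
    rw [mem_range] at hi
    exact_mod_cast hi
  have hD1 : (k : ℝ) ≤ D := by exact_mod_cast hDk
  have hταk : τ * k + β * k = α * k := by rw [hτdef]; ring
  have hτk : (k : ℝ) < τ * k := by nlinarith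
  have hβk : 0 ≤ β * k := by positivity
  -- comparison of the products
  have h1 : (∏ i ∈ range k, (α * k - i)) * (D.descFactorial k : ℝ) ≤
      (r.descFactorial k : ℝ) * ∏ i ∈ range k, (τ * k - i) := by
    rw [desc_real D k hDk, desc_real r k hkr, ← prod_mul_distrib, ← prod_mul_distrib]
    refine prod_le_prod (fun i hi => ?_) fun i hi => ?_
    · have := hik i hi
      have h2 : 0 ≤ α * k - i := by linarith
      have h3 : 0 ≤ (D : ℝ) - i := by linarith
      positivity
    · have := hik i hi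
      have h3 : 0 ≤ (D : ℝ) - i := by linarith
      have h4 : (r : ℝ) = D + F := by rw [hDr]; ring
      rw [h4, ← hταk]
      have h5 : 0 ≤ τ * k - D := by linarith
      have h6 : 0 ≤ (F : ℝ) - β * k := by linarith
      have h7 : 0 ≤ τ * k - i := by linarith
      nlinarith [mul_nonneg h6 h7, mul_nonneg hβk h5]
  have hPτ : 0 < ∏ i ∈ range k, (τ * k - (i : ℝ)) := by
    refine prod_pos fun i hi => ?_
    have := hik i hi
    linarith
  have hPα : 0 < ∏ i ∈ range k, (α * k - (i : ℝ)) := by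
    refine prod_pos fun i hi => ?_
    have := hik i hi
    linarith
  have h2 : (∏ i ∈ range k, (α * k - (i : ℝ))) ≤ ((k : ℝ) * 2 ^ k) * ∏ i ∈ range k, (τ * k - (i : ℝ)) := by
    have h3 : (∏ i ∈ range k, (α * k - (i : ℝ))) * (D.descFactorial k : ℝ) ≤
        (((k : ℝ) * 2 ^ k) * ∏ i ∈ range k, (τ * k - (i : ℝ))) * (D.descFactorial k : ℝ) := by
      calc _ ≤ _ := h1
        _ ≤ (n * D.descFactorial k) * ∏ i ∈ range k, (τ * k - (i : ℝ)) := by gcongr
        _ ≤ (((k : ℝ) * 2 ^ k) * D.descFactorial k) * ∏ i ∈ range k, (τ * k - (i : ℝ)) := by gcongr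
        _ = _ := by ring
    exact le_of_mul_le_mul_right h3 hDpos
  -- logarithms
  have h3 := Real.log_le_log hPα h2
  rw [Real.log_mul (by positivity) hPτ.ne', Real.log_mul hkp.ne' (by positivity), Real.log_pow,
    Real.log_prod (fun i hi => ?_), Real.log_prod (fun i hi => ?_)] at h3
  rotate_left
  · have := hik i hi
    have : 0 < τ * k - (i : ℝ) := by linarith
    exact this.ne'
  · have := hik i hi
    have : 0 < α * k - (i : ℝ) := by linarith
    exact this.ne'
  have h4 : ps (α * k) - ps (α * k - k) - k ≤ ∑ i ∈ range k, Real.log (α * k - i) := by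
    have h5 : ∑ i ∈ range k, (ps (α * k - i) - ps (α * k - (i + 1 : ℕ)) - 1) ≤
        ∑ i ∈ range k, Real.log (α * k - i) := by
      refine sum_le_sum fun i hi => ?_
      have := hik i hi
      have h6 := log_ge (x := α * k - i) (by nlinarith)
      have h7 : α * k - i - 1 = α * k - (i + 1 : ℕ) := by push_cast; ring
      rw [h7] at h6
      exact h6
    rw [sum_sub_distrib, sum_range_sub' (fun i : ℕ => ps (α * k - i))] at h5
    simpa using h5
  have h5 : ∑ i ∈ range k, Real.log (τ * k - i) ≤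
      ps (τ * k) - ps (τ * k - k) - k + (Real.log (τ * k) - Real.log (τ * k - k)) := by
    have h6 : ∑ i ∈ range k, Real.log (τ * k - i) ≤
        ∑ i ∈ range k, ((ps (τ * k - i) - ps (τ * k - (i + 1 : ℕ)) - 1) +
          (Real.log (τ * k - i) - Real.log (τ * k - (i + 1 : ℕ)))) := by
      refine sum_le_sum fun i hi => ?_
      have := hik i hi
      have h7 := log_le (x := τ * k - i) (by linarith)
      have h8 : τ * k - i - 1 = τ * k - (i + 1 : ℕ) := by push_cast; ring
      rw [h8] at h7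
      linarith
    rw [sum_add_distrib, sum_sub_distrib, sum_range_sub' (fun i : ℕ => ps (τ * k - i)),
      sum_range_sub' (fun i : ℕ => Real.log (τ * k - i))] at h6
    simpa using h6
  have e1 : α * k - k = (α - 1) * k := by ring
  have e2 : τ * k - k = (τ - 1) * k := by ring
  rw [e1, ps_mul (by linarith) hkp, ps_mul (by linarith) hkp] at h4
  rw [e2, ps_mul (by linarith) hkp, ps_mul (by linarith) hkp, Real.log_mul (by linarith) hkp.ne',
    Real.log_mul (by linarith) hkp.ne'] at h5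
  have h6 : (k : ℝ) * G = k * ps α - k * ps (α - 1) - k * ps τ + k * ps (τ - 1) := by
    rw [hGdef]; ring
  nlinarith

theorem ps_div {x : ℕ} {N : ℕ} (hx : 0 < x) (hN : 0 < N) :
    (N : ℝ) * ps ((x : ℝ) / N) = x * Real.log x - x * Real.log N := by
  have h1 : (0 : ℝ) < x := by exact_mod_cast hx
  have h2 : (0 : ℝ) < N := by exact_mod_cast hN
  unfold ps
  rw [Real.log_div h1.ne' h2.ne']
  field_simp

/-- The exponent condition for rational numbers. -/
theorem numN {a b t u v N : ℕ} (h1 : a = u + N) (h2 : t = v + N) (h3 : a = b + t) (hN : 0 < N)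
    (hv : 0 < v) (hu : 0 < u) (h : 2 ^ N * u ^ u * t ^ t < a ^ a * v ^ v) :
    Real.log 2 < ps ((a : ℝ) / N) - ps ((a : ℝ) / N - 1) - ps ((a : ℝ) / N - (b : ℝ) / N) +
      ps ((a : ℝ) / N - (b : ℝ) / N - 1) := by
  have hNR : (0 : ℝ) < N := by exact_mod_cast hN
  have huR : (0 : ℝ) < u := by exact_mod_cast hu
  have hvR : (0 : ℝ) < v := by exact_mod_cast hv
  have htR : (0 : ℝ) < t := by exact_mod_cast (by omega : 0 < t)
  have haR : (0 : ℝ) < a := by exact_mod_cast (by omega : 0 < a)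
  have c1 : (a : ℝ) = u + N := by exact_mod_cast h1
  have c2 : (t : ℝ) = v + N := by exact_mod_cast h2
  have c3 : (a : ℝ) = b + t := by exact_mod_cast h3
  have e1 : (a : ℝ) / N - 1 = (u : ℝ) / N := by
    rw [c1]; field_simp; ring
  have e2 : (a : ℝ) / N - (b : ℝ) / N = (t : ℝ) / N := by
    rw [c3]; field_simp; ring
  have e3 : (t : ℝ) / N - 1 = (v : ℝ) / N := by
    rw [c2]; field_simp; ring
  rw [e2, e3, e1]
  have hR : (2 : ℝ) ^ N * (u : ℝ) ^ u * (t : ℝ) ^ t < (a : ℝ) ^ a * (v : ℝ) ^ v := by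
    exact_mod_cast h
  have hlog := Real.log_lt_log (by positivity) hR
  rw [Real.log_mul (by positivity) (by positivity), Real.log_mul (by positivity) (by positivity),
    Real.log_mul (by positivity) (by positivity), Real.log_pow, Real.log_pow, Real.log_pow,
    Real.log_pow, Real.log_pow] at hlog
  have d1 := ps_div (x := a) (N := N) (by omega) hN
  have d2 := ps_div (x := u) (N := N) hu hN
  have d3 := ps_div (x := t) (N := N) (by omega) hN
  have d4 := ps_div (x := v) (N := N) hv hN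
  have key : (N : ℝ) * Real.log 2 < N * (ps ((a : ℝ) / N) - ps ((u : ℝ) / N) -
      ps ((t : ℝ) / N) + ps ((v : ℝ) / N)) := by
    have h5 : (N : ℝ) * (ps ((a : ℝ) / N) - ps ((u : ℝ) / N) -
      ps ((t : ℝ) / N) + ps ((v : ℝ) / N)) = (a * Real.log a - a * Real.log N) -
      (u * Real.log u - u * Real.log N) - (t * Real.log t - t * Real.log N) +
      (v * Real.log v - v * Real.log N) := by
      rw [← d1, ← d2, ← d3, ← d4]; ring
    rw [h5]
    have h6 : (a : ℝ) * Real.log N = u * Real.log N + N * Real.log N := by rw [c1]; ring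
    have h7 : (t : ℝ) * Real.log N = v * Real.log N + N * Real.log N := by rw [c2]; ring
    linarith
  exact lt_of_mul_lt_mul_left key hNR.le

/-! ### The recursion -/

/-- Real lower bounds. -/
def LowR (r : Fin n → Fin n → Prop) (j : ℕ) (t : ℝ) : Prop :=
  ∀ A : Finset (Fin n), A.card = j → t ≤ (IN r A).card

theorem LowR.low {j : ℕ} {t : ℝ} (h : LowR r j t) : Low r j ⌈t⌉₊ :=
  fun A hA => Nat.ceil_le.2 (h A hA)

theorem halves (hT : Tour r) : ∀ (j : ℕ) {F : ℕ}, 1 ≤ F → Low r j F → j ≤ n →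
    Low r 0 (2 ^ j * F) := by
  intro j
  induction j with
  | zero => intro F _ h _; simpa using h
  | succ j ih =>
    intro F hF h hj
    have h1 := ih (F := 2 * F) (by omega) (halve hT hF h (by omega)) (by omega)
    rw [pow_succ]
    convert h1 using 1
    ring

/-- One level of the recursion. -/
theorem levelE {α β : ℝ} {k : ℕ}
    (hnum : ∀ r F n : ℕ, k ≤ r → F ≤ r → β * k ≤ F → r.choose k ≤ n * (r - F).choose k →
      (n : ℝ) ≤ k * 2 ^ k → α * k ≤ r)
    (hT : Tour r) (hS : PS k r) (hn : (n : ℝ) ≤ k * 2 ^ k) {j : ℕ} (hj : j + 1 ≤ k)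
    (hβ : 0 < β * k) (h : LowR r (j + 1) (β * k)) : LowR r j (α * k) := by
  intro A hA
  obtain ⟨h1, h2, h3⟩ := step hT hS hj (F := ⌈β * k⌉₊) (Nat.one_le_ceil_iff.2 hβ) h.low hA
  exact hnum _ _ _ h1 h2 (Nat.le_ceil _) h3 hn

/-- The first level. -/
theorem level1 {k : ℕ} (hT : Tour r) (hS : PS k r) (hk : 1 ≤ k) : LowR r (k - 1) (1 * (k : ℝ)) := by
  intro A hA
  have h0 : Low r (k - 1 + 1) 1 := by
    intro B hB
    obtain ⟨x, hx⟩ := hS.2 B (by omega)
    exact card_pos.2 ⟨x, mem_IN.2 hx⟩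
  obtain ⟨h1, -, -⟩ := step hT hS (by omega) le_rfl h0 (A := A) hA
  rw [one_mul]
  exact_mod_cast h1

/-- One level of the recursion, linear form. -/
theorem level {δ M : ℝ} {k : ℕ}
    (hnum : ∀ r F n : ℕ, k ≤ r → (r : ℝ) ≤ M * k → F ≤ r → r.choose k ≤ n * (r - F).choose k →
      (n : ℝ) ≤ k * 2 ^ k → 2 * (F : ℝ) + (1 / 2 - δ) * k ≤ r)
    (hT : Tour r) (hS : PS k r) (hn : (n : ℝ) ≤ k * 2 ^ k) {j : ℕ} (hj : j + 1 ≤ k) {α : ℝ}
    (hα : 0 < α * k) (hM : 2 * α + (1 / 2 - δ) ≤ M) (h : LowR r (j + 1) (α * k)) :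
    LowR r j ((2 * α + (1 / 2 - δ)) * k) := by
  intro A hA
  obtain ⟨h1, h2, h3⟩ := step hT hS hj (F := ⌈α * k⌉₊) (Nat.one_le_ceil_iff.2 hα) h.low hA
  by_cases hr : ((IN r A).card : ℝ) ≤ M * k
  · have h4 := hnum _ _ _ h1 hr h2 h3 hn
    have h5 := Nat.le_ceil (α * k)
    have h6 : (2 * α + (1 / 2 - δ)) * k = 2 * (α * k) + (1 / 2 - δ) * k := by ring
    rw [h6]
    linarith
  · push Not at hr
    refine le_trans ?_ hr.le
    gcongr

/-- All levels of the recursion, linear form. -/
theorem levels {δ M α : ℝ} {k s : ℕ} (hδ1 : δ ≤ 1 / 2) (hα : 1 ≤ α)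
    (hnum : ∀ r F n : ℕ, k ≤ r → (r : ℝ) ≤ M * k → F ≤ r → r.choose k ≤ n * (r - F).choose k →
      (n : ℝ) ≤ k * 2 ^ k → 2 * (F : ℝ) + (1 / 2 - δ) * k ≤ r)
    (hT : Tour r) (hS : PS k r) (hn : (n : ℝ) ≤ k * 2 ^ k) (hk : 1 ≤ k) (hs : 1 ≤ s)
    (h0 : LowR r (k - s) (α * k)) : ∀ i : ℕ, s + i ≤ k → (α + 1 / 2 - δ) * 2 ^ i ≤ M →
    LowR r (k - s - i) (((α + 1 / 2 - δ) * 2 ^ i - (1 / 2 - δ)) * k) := by
  have hpos0 : 0 ≤ α + 1 / 2 - δ := by linarith
  intro i
  induction i with
  | zero =>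
    intro _ _
    have h2 : ((α + 1 / 2 - δ) * 2 ^ 0 - (1 / 2 - δ)) * (k : ℝ) = α * k := by ring
    rw [h2]
    simpa using h0
  | succ i ih =>
    intro hi hM
    have hp : (1 : ℝ) ≤ 2 ^ i := one_le_pow₀ (by norm_num)
    have hpos : 0 ≤ (α + 1 / 2 - δ) * 2 ^ i := by positivity
    have hM' : (α + 1 / 2 - δ) * 2 ^ i ≤ M := by
      rw [pow_succ] at hM
      linarith
    have h1 := ih (by omega) hM'
    have hkp : (0 : ℝ) < k := by exact_mod_cast hk
    have hlow : (1 : ℝ) ≤ (α + 1 / 2 - δ) * 2 ^ i - (1 / 2 - δ) := by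
      have : (α + 1 / 2 - δ) * 1 ≤ (α + 1 / 2 - δ) * 2 ^ i := by gcongr
      linarith
    have he : k - s - i = (k - s - (i + 1)) + 1 := by omega
    rw [he] at h1
    have h2 := level hnum hT hS hn (j := k - s - (i + 1)) (by omega)
      (α := (α + 1 / 2 - δ) * 2 ^ i - (1 / 2 - δ)) (by positivity) (by
        rw [pow_succ] at hM
        linarith) h1
    have h3 : (α + 1 / 2 - δ) * 2 ^ (i + 1) - (1 / 2 - δ) =
        2 * ((α + 1 / 2 - δ) * 2 ^ i - (1 / 2 - δ)) + (1 / 2 - δ) := by ring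
    rw [h3]
    exact h2

set_option exponentiation.threshold 10000 in
theorem ex1 : (2 : ℕ) ^ 500 * 781 ^ 781 * 781 ^ 781 < 1281 ^ 1281 * 281 ^ 281 := by norm_num

set_option exponentiation.threshold 10000 in
theorem ex2 : (2 : ℕ) ^ 500 * 2324 ^ 2324 * 1543 ^ 1543 < 2824 ^ 2824 * 1043 ^ 1043 := by norm_num

set_option exponentiation.threshold 10000 in
theorem ex3 : (2 : ℕ) ^ 500 * 5403 ^ 5403 * 3079 ^ 3079 < 5903 ^ 5903 * 2579 ^ 2579 := by norm_num

theorem main : ∃ k0 : ℕ, ∀ k : ℕ, k0 ≤ k → ∀ (n : ℕ) (r : Fin n → Fin n → Prop), Tour r →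
    PS k r → (769 / 1000 : ℝ) * (k * 2 ^ k) < n := by
  have g1 := numN (a := 1281) (b := 500) (t := 781) (u := 781) (v := 281) (N := 500) (by norm_num)
    (by norm_num) (by norm_num) (by norm_num) (by norm_num) (by norm_num) ex1
  have g2 := numN (a := 2824) (b := 1281) (t := 1543) (u := 2324) (v := 1043) (N := 500)
    (by norm_num) (by norm_num) (by norm_num) (by norm_num) (by norm_num) (by norm_num) ex2
  have g3 := numN (a := 5903) (b := 2824) (t := 3079) (u := 5403) (v := 2579) (N := 500)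
    (by norm_num) (by norm_num) (by norm_num) (by norm_num) (by norm_num) (by norm_num) ex3
  obtain ⟨k1, hk1⟩ := numE (by norm_num) (by norm_num) g1
  obtain ⟨k2, hk2⟩ := numE (by norm_num) (by norm_num) g2
  obtain ⟨k3, hk3⟩ := numE (by norm_num) (by norm_num) g3
  obtain ⟨k4, hk4⟩ := num (δ := 1 / 1000) (M := 100000) (by norm_num) (by norm_num)
  refine ⟨k1 + k2 + k3 + k4 + 100, fun k hk n r hT hS => ?_⟩
  have hkp : (0 : ℝ) < k := by exact_mod_cast (by omega : 0 < k)
  by_contra hlt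
  push Not at hlt
  have hn : (n : ℝ) ≤ k * 2 ^ k := by
    refine hlt.trans ?_
    have : 0 < (k : ℝ) * 2 ^ k := by positivity
    nlinarith
  have l1 := level1 hT hS (by omega : 1 ≤ k)
  have l2 : LowR r (k - 2) (((1281 : ℕ) : ℝ) / (500 : ℕ) * k) := by
    refine levelE (hk1 k (by omega)) hT hS hn (j := k - 2) (by omega) (by positivity) ?_
    have e : k - 2 + 1 = k - 1 := by omega
    rw [e]
    have e2 : (((500 : ℕ) : ℝ) / (500 : ℕ)) = 1 := by norm_num
    rw [e2]
    exact l1
  have l3 : LowR r (k - 3) (((2824 : ℕ) : ℝ) / (500 : ℕ) * k) := by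
    refine levelE (hk2 k (by omega)) hT hS hn (j := k - 3) (by omega) (by positivity) ?_
    have e : k - 3 + 1 = k - 2 := by omega
    rw [e]
    exact l2
  have l4 : LowR r (k - 4) (((5903 : ℕ) : ℝ) / (500 : ℕ) * k) := by
    refine levelE (hk3 k (by omega)) hT hS hn (j := k - 4) (by omega) (by positivity) ?_
    have e : k - 4 + 1 = k - 3 := by omega
    rw [e]
    exact l3
  have l5 := levels (by norm_num) (by norm_num) (hk4 k (by omega)) hT hS hn (by omega)
    (by norm_num) l4 12 (by omega) (by norm_num)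
  have h3 := halves hT (k - 4 - 12) (Nat.one_le_ceil_iff.2 (by positivity)) l5.low
    (by have := hS.1; omega)
  have h4 := h3 ∅ rfl
  have h5 : (IN r ∅).card = n := by
    simp [IN]
  rw [h5] at h4
  have h7 := Nat.le_ceil ((((((5903 : ℕ) : ℝ) / (500 : ℕ)) + 1 / 2 - 1 / 1000) * 2 ^ 12 -
    (1 / 2 - 1 / 1000)) * k)
  set X : ℝ := (((((5903 : ℕ) : ℝ) / (500 : ℕ)) + 1 / 2 - 1 / 1000) * 2 ^ 12 -
    (1 / 2 - 1 / 1000)) * k with hX
  have h6 : ((2 ^ (k - 4 - 12) * ⌈X⌉₊ : ℕ) : ℝ) ≤ n := by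
    exact_mod_cast h4
  push_cast at h6
  have h8 : (2 : ℝ) ^ (k - 4 - 12) * X ≤ n :=
    (mul_le_mul_of_nonneg_left h7 (by positivity)).trans h6
  have h9 : (2 : ℝ) ^ k = 2 ^ (k - 4 - 12) * 65536 := by
    have : (65536 : ℝ) = 2 ^ 16 := by norm_num
    rw [this, ← pow_add]
    congr 1
    omega
  have h10 := h8.trans hlt
  rw [h9, hX] at h10
  have h11 : (0 : ℝ) < 2 ^ (k - 4 - 12) * k := by positivity
  push_cast at h10
  nlinarith

end Pool.Agent.T6.H51.ST
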